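import Pool.Agent.R972.OP.Stm

/-! OP-CONN: connectivity of the admissible placements under exchanges of neighbouring positions
(for helper972, project OP). -/

set_option autoImplicit false

namespace Pool.Agent.R574.OPConn

open Pool.Agent.R972.OP

variable {n : ℕ}

theorem mem_cfg {N : ℕ} {R : Fin n → Fin n → Prop} {g : Fin n → ℕ} :
    g ∈ cfg N R ↔ (∀ a, g a < N) ∧ Function.Injective g ∧ ∀ a b, R a b → g a < g b := by
  classical
  unfold cfg
  rw [Finset.mem_filter, Fintype.mem_piFinset]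
  simp only [Finset.mem_range]

theorem sw_lt {k x y : ℕ} (h : x < y) (h' : ¬ (x = k ∧ y = k + 1)) :
    Equiv.swap k (k + 1) x < Equiv.swap k (k + 1) y := by
  rw [Equiv.swap_apply_def, Equiv.swap_apply_def]
  split_ifs <;> omega

theorem sw_bound {k x N : ℕ} (h : x < N) (hk : k + 1 < N) : Equiv.swap k (k + 1) x < N := by
  rw [Equiv.swap_apply_def]
  split_ifs <;> omega

theorem mv_mem {N : ℕ} {R : Fin n → Fin n → Prop} {g : Fin n → ℕ} (hg : g ∈ cfg N R) {k : ℕ}
    (hk : k + 1 < N) (h : ∀ a b, R a b → ¬ (g a = k ∧ g b = k + 1)) :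
    mv k (k + 1) g ∈ cfg N R := by
  rw [mem_cfg] at hg ⊢
  refine ⟨fun a => sw_bound (hg.1 a) hk, fun a b hab => hg.2.1 ((Equiv.swap k (k + 1)).injective hab),
    fun a b hab => sw_lt (hg.2.2 a b hab) (h a b hab)⟩

theorem step {N : ℕ} {R : Fin n → Fin n → Prop} {g h : Fin n → ℕ} (hg : g ∈ cfg N R)
    (hh : h ∈ cfg N R) (hex : ∃ a, g a < h a) :
    ∃ k, k + 1 < N ∧ mv k (k + 1) g ∈ cfg N R ∧
      ∑ a, ((mv k (k + 1) g a : ℤ) - h a) ^ 2 < ∑ a, ((g a : ℤ) - h a) ^ 2 := by
  have hg' := mem_cfg.1 hg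
  have hh' := mem_cfg.1 hh
  obtain ⟨a, ha, hmax⟩ := Finset.exists_max_image (Finset.univ.filter (fun a => g a < h a)) g
    (by
      obtain ⟨a, ha⟩ := hex
      exact ⟨a, Finset.mem_filter.2 ⟨Finset.mem_univ _, ha⟩⟩)
  rw [Finset.mem_filter] at ha
  have ha2 := ha.2
  have hk : g a + 1 < N := by
    have := hh'.1 a
    omega
  refine ⟨g a, hk, ?_⟩
  have hva : mv (g a) (g a + 1) g a = g a + 1 := Equiv.swap_apply_left _ _
  have hother : ∀ c, c ≠ a → g c ≠ g a + 1 → mv (g a) (g a + 1) g c = g c := by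
    intro c hc hc2
    exact Equiv.swap_apply_of_ne_of_ne (fun h => hc (hg'.2.1 h)) hc2
  by_cases hb : ∃ b, g b = g a + 1
  · obtain ⟨b, hb⟩ := hb
    have hvb : mv (g a) (g a + 1) g b = g a := by
      show Equiv.swap (g a) (g a + 1) (g b) = g a
      rw [hb]
      exact Equiv.swap_apply_right _ _
    have hba : b ≠ a := by
      rintro rfl
      omega
    have hbU : h b ≤ g b := by
      by_contra hcon
      push Not at hcon
      have := hmax b (Finset.mem_filter.2 ⟨Finset.mem_univ _, hcon⟩)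
      omega
    have hlt : h b < h a := by
      have : h b ≠ h a := fun h' => hba (hh'.2.1 h')
      omega
    refine ⟨mv_mem hg hk ?_, ?_⟩
    · rintro c d hcd ⟨h1, h2⟩
      have e1 : c = a := hg'.2.1 h1
      have e2 : d = b := hg'.2.1 (h2.trans hb.symm)
      rw [e1, e2] at hcd
      have := hh'.2.2 a b hcd
      omega
    · have h1 : ∑ c, (((g c : ℤ) - h c) ^ 2 - ((mv (g a) (g a + 1) g c : ℤ) - h c) ^ 2) =
          (((g a : ℤ) - h a) ^ 2 - ((mv (g a) (g a + 1) g a : ℤ) - h a) ^ 2) +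
          (((g b : ℤ) - h b) ^ 2 - ((mv (g a) (g a + 1) g b : ℤ) - h b) ^ 2) := by
        apply Finset.sum_eq_add a b hba.symm
        · rintro c _ ⟨hca, hcb⟩
          rw [hother c hca (fun h' => hcb (hg'.2.1 (h'.trans hb.symm))), sub_self]
        · intro h'
          exact absurd (Finset.mem_univ _) h'
        · intro h'
          exact absurd (Finset.mem_univ _) h'
      rw [Finset.sum_sub_distrib, hva, hvb, hb] at h1
      have h2 : (((g a : ℤ) - h a) ^ 2 - (((g a + 1 : ℕ) : ℤ) - h a) ^ 2) +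
          ((((g a + 1 : ℕ) : ℤ) - h b) ^ 2 - ((g a : ℤ) - h b) ^ 2) = 2 * ((h a : ℤ) - h b) := by
        push_cast
        ring
      rw [h2] at h1
      have h3 : (0 : ℤ) < 2 * ((h a : ℤ) - h b) := by omega
      linarith
  · push Not at hb
    refine ⟨mv_mem hg hk fun c d _ h' => hb d h'.2, ?_⟩
    apply Finset.sum_lt_sum
    · intro c _
      by_cases hca : c = a
      · subst hca
        rw [hva]
        have h1 : (g c : ℤ) + 1 ≤ h c := by exact_mod_cast ha2
        push_cast
        nlinarith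
      · rw [hother c hca (hb c)]
    · refine ⟨a, Finset.mem_univ _, ?_⟩
      rw [hva]
      have h1 : (g a : ℤ) + 1 ≤ h a := by exact_mod_cast ha2
      push_cast
      nlinarith

theorem conn : S_CONN := by
  intro n N R F hF
  have key : ∀ m : ℕ, ∀ g ∈ cfg N R, ∀ h ∈ cfg N R,
      ∑ a, ((g a : ℤ) - h a) ^ 2 ≤ (m : ℤ) → F g = F h := by
    intro m
    induction m with
    | zero =>
      intro g _ h _ hm
      have h0 : ∀ a ∈ Finset.univ, (0 : ℤ) ≤ ((g a : ℤ) - h a) ^ 2 := fun a _ => sq_nonneg _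
      have h1 : ∑ a, ((g a : ℤ) - h a) ^ 2 = 0 :=
        le_antisymm (by simpa using hm) (Finset.sum_nonneg h0)
      rw [Finset.sum_eq_zero_iff_of_nonneg h0] at h1
      have h2 : g = h := by
        funext a
        have h3 := h1 a (Finset.mem_univ a)
        rw [sq_eq_zero_iff, sub_eq_zero] at h3
        exact_mod_cast h3
      rw [h2]
    | succ m ih =>
      have hhalf : ∀ g ∈ cfg N R, ∀ h ∈ cfg N R, (∃ a, g a < h a) →
          ∑ a, ((g a : ℤ) - h a) ^ 2 ≤ ((m + 1 : ℕ) : ℤ) → F g = F h := by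
        intro g hg h hh hex hm
        obtain ⟨k, hk, hmem, hlt⟩ := step hg hh hex
        rw [← hF g hg k hk hmem]
        apply ih _ hmem h hh
        push_cast at hm
        linarith
      intro g hg h hh hm
      by_cases h1 : ∃ a, g a < h a
      · exact hhalf g hg h hh h1 hm
      · by_cases h2 : ∃ a, h a < g a
        · refine (hhalf h hh g hg h2 ?_).symm
          refine le_trans (le_of_eq ?_) hm
          refine Finset.sum_congr rfl fun a _ => ?_
          ring
        · push Not at h1 h2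
          rw [show g = h from funext fun a => le_antisymm (h2 a) (h1 a)]
  intro g hg h hh
  have h0 : (0 : ℤ) ≤ ∑ a, ((g a : ℤ) - h a) ^ 2 := Finset.sum_nonneg fun a _ => sq_nonneg _
  obtain ⟨m, hm⟩ := Int.eq_ofNat_of_zero_le h0
  exact key m g hg h hh (le_of_eq hm)

end Pool.Agent.R574.OPConn
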